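import Mathlib
import Pool.Agent.J6H13.UM.All

/-! # Exact patterns: all forms of one system are chosen, no form of a second one (helper62)

The law of `Pool.Agent.J6H13.UM` gives the expected number of `n` with all `f n`, `f ∈ L`, chosen; for `g ∈ G` the
expected number with also `g n` chosen is at most `η` times as large, `η` a bound for the densities. -/

set_option autoImplicit false
set_option linter.unusedSectionVars false

namespace Pool.Agent.J6H62.CM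

open Filter MeasureTheory
open Pool.Agent.R528.RM
open Pool.Agent.J6H13.UM
open scoped Topology

lemma err_le (k : ℕ) (u l N : ℝ) (hu : 1 ≤ u) (hl : 0 ≤ l) (hlu : l ≤ u) (hN : 0 ≤ N)
    (hue : 8 * (k : ℝ) ^ 4 * (3 * k + 4) ≤ u) :
    2 * k * k * √(2 * ((3 * k + 2 : ℕ) + 2) * l * N) ≤ u * √N := by
  have hk0 : (0 : ℝ) ≤ k := Nat.cast_nonneg k
  have hu0 : 0 < u := by linarith
  have e1 : 2 * (k : ℝ) * k * √(2 * ((3 * k + 2 : ℕ) + 2) * l * N) =
      √((2 * (k : ℝ) * k) ^ 2 * (2 * ((3 * k + 2 : ℕ) + 2) * l * N)) := by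
    conv_rhs => rw [Real.sqrt_mul (by positivity), Real.sqrt_sq (by positivity)]
  have e2 : u * √N = √(u ^ 2 * N) := by
    rw [Real.sqrt_mul (by positivity), Real.sqrt_sq hu0.le]
  rw [e1, e2]
  apply Real.sqrt_le_sqrt
  push_cast
  have e3 : (2 * (k : ℝ) * k) ^ 2 * (2 * ((3 * k + 2) + 2) * l * N) =
      8 * (k : ℝ) ^ 4 * (3 * k + 4) * l * N := by ring
  rw [e3, pow_two u]
  gcongr

lemma num2 (k B : ℕ) (c C3 : ℝ) (hc : 0 < c) (hC3 : 0 < C3) : ∃ K : ℝ, ∀ (u N M w y l g : ℝ), K ≤ u →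
    1 ≤ y → y ≤ u → 1 ≤ l → l ≤ u → M ≤ u → 1 ≤ w → w ≤ C3 * u → 0 ≤ g → g ≤ u → u ^ (8 * k + 12 + B) ≤ N →
    N / u ^ (8 * k + 12 + B) ≤
      (1 / 2) * ((c * (N - M) / w ^ (2 * k) - y ^ B - (k : ℝ) ^ 2) * (1 / (3 * l)) ^ k) -
        2 * k * k * √(2 * ((3 * k + 2 : ℕ) + 2) * l * N) -
        g * (2 * (k + 1 : ℕ) * (k + 1 : ℕ) * √(2 * ((3 * (k + 1) + 2 : ℕ) + 2) * l * N)) := by
  refine ⟨max (max (max 4 (2 * (k : ℝ) ^ 2)) (8 * ((k + 1 : ℕ) : ℝ) ^ 4 * (3 * (k + 1 : ℕ) + 4)))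
    (max (2 * C3 ^ (2 * k) / c) (8 * (k : ℝ) ^ 4 * (3 * k + 4))), ?_⟩
  intro u N M w y l g hu hy hyu hl hlu hMu hw hwu hg0 hgu hN
  have hu4 : 4 ≤ u := (((le_max_left _ _).trans (le_max_left _ _)).trans (le_max_left _ _)).trans hu
  have huk : 2 * (k : ℝ) ^ 2 ≤ u := (((le_max_right _ _).trans (le_max_left _ _)).trans (le_max_left _ _)).trans hu
  have hue' : 8 * ((k + 1 : ℕ) : ℝ) ^ 4 * (3 * (k + 1 : ℕ) + 4) ≤ u :=
    ((le_max_right _ _).trans (le_max_left _ _)).trans hu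
  have huc : 2 * C3 ^ (2 * k) / c ≤ u := ((le_max_left _ _).trans (le_max_right _ _)).trans hu
  have hue : 8 * (k : ℝ) ^ 4 * (3 * k + 4) ≤ u := ((le_max_right _ _).trans (le_max_right _ _)).trans hu
  have hu0 : 0 < u := by linarith
  have hu1 : 1 ≤ u := by linarith
  have hk0 : (0 : ℝ) ≤ k := Nat.cast_nonneg k
  have hpowm : ∀ i : ℕ, i ≤ 8 * k + 12 + B → u ^ i ≤ N := fun i hi => (pow_le_pow_right₀ hu1 hi).trans hN
  have hN0 : 0 < N := lt_of_lt_of_le (by positivity) hN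
  -- N - M
  have h1 : N / 2 ≤ N - M := by
    have h2 := hpowm 2 (by omega)
    nlinarith
  -- the main term
  have h2 : N / u ^ (2 * k + 1) ≤ c * (N - M) / w ^ (2 * k) := by
    have e1 : N / u ^ (2 * k + 1) ≤ c * (N / 2) / (C3 * u) ^ (2 * k) := by
      rw [mul_pow, div_le_div_iff₀ (by positivity) (by positivity), pow_succ]
      have h3 : 2 * C3 ^ (2 * k) ≤ u * c := by rwa [div_le_iff₀ hc] at huc
      have h4 : 0 ≤ N * u ^ (2 * k) := by positivity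
      nlinarith
    refine e1.trans ?_
    have hw0 : 0 < w := by linarith
    have hcn : 0 ≤ c * (N - M) := mul_nonneg hc.le (by linarith)
    gcongr
  have h3 : y ^ B + (k : ℝ) ^ 2 ≤ u ^ (B + 1) := by
    have g1 : y ^ B ≤ u ^ B := pow_le_pow_left₀ (by linarith) hyu B
    have g2 : (1 : ℝ) ≤ u ^ B := one_le_pow₀ hu1
    rw [pow_succ u B]
    nlinarith
  have h4 : u ^ (B + 1) ≤ N / (2 * u ^ (2 * k + 1)) := by
    rw [le_div_iff₀ (by positivity)]
    have g1 := hpowm (B + 1 + (2 * k + 1) + 1) (by omega)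
    have g2 : u ^ (B + 1 + (2 * k + 1) + 1) = u ^ (B + 1) * u ^ (2 * k + 1) * u := by ring
    rw [g2] at g1
    have g3 : 0 < u ^ (B + 1) * u ^ (2 * k + 1) := by positivity
    nlinarith
  have h5 : N / u ^ (2 * k + 2) ≤ c * (N - M) / w ^ (2 * k) - y ^ B - (k : ℝ) ^ 2 := by
    have g1 : N / u ^ (2 * k + 2) ≤ N / (2 * u ^ (2 * k + 1)) := by
      apply div_le_div_of_nonneg_left hN0.le (by positivity)
      rw [show 2 * k + 2 = (2 * k + 1) + 1 by ring, pow_succ u (2 * k + 1)]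
      have : 0 < u ^ (2 * k + 1) := by positivity
      nlinarith
    have g2 : N / u ^ (2 * k + 1) = N / (2 * u ^ (2 * k + 1)) + N / (2 * u ^ (2 * k + 1)) := by
      field_simp
      ring
    linarith
  have h6 : 1 / u ^ (2 * k) ≤ (1 / (3 * l)) ^ k := by
    rw [pow_mul, ← one_div_pow]
    apply pow_le_pow_left₀ (by positivity)
    apply one_div_le_one_div_of_le (by positivity)
    nlinarith
  have h7 : N / u ^ (4 * k + 3) ≤
      (1 / 2) * ((c * (N - M) / w ^ (2 * k) - y ^ B - (k : ℝ) ^ 2) * (1 / (3 * l)) ^ k) := by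
    have g1 : N / u ^ (2 * k + 2) * (1 / u ^ (2 * k)) ≤
        (c * (N - M) / w ^ (2 * k) - y ^ B - (k : ℝ) ^ 2) * (1 / (3 * l)) ^ k :=
      mul_le_mul h5 h6 (by positivity) ((by positivity : (0 : ℝ) ≤ N / u ^ (2 * k + 2)).trans h5)
    have g2 : N / u ^ (4 * k + 3) ≤ 1 / 2 * (N / u ^ (2 * k + 2) * (1 / u ^ (2 * k))) := by
      have e1 : u ^ (4 * k + 3) = u ^ (2 * k + 2) * u ^ (2 * k) * u := by ring
      rw [e1]
      have e2 : 1 / 2 * (N / u ^ (2 * k + 2) * (1 / u ^ (2 * k))) = N / (u ^ (2 * k + 2) * u ^ (2 * k) * 2) := by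
        field_simp
      rw [e2]
      apply div_le_div_of_nonneg_left hN0.le (by positivity)
      gcongr
      linarith
    linarith
  have h8 := err_le k u l N hu1 (by linarith) hlu hN0.le hue
  have h8' := err_le (k + 1) u l N hu1 (by linarith) hlu hN0.le hue'
  have h8'' : g * (2 * (k + 1 : ℕ) * (k + 1 : ℕ) * √(2 * ((3 * (k + 1) + 2 : ℕ) + 2) * l * N)) ≤ u * (u * √N) := by
    apply mul_le_mul hgu h8' (by positivity) hu0.le
  have h9 : 2 * (u * (u * √N)) ≤ N / (2 * u ^ (4 * k + 3)) := by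
    have g1 : u ^ (4 * k + 6) ≤ √N := by
      apply Real.le_sqrt_of_sq_le
      rw [← pow_mul]
      exact hpowm _ (by omega)
    rw [le_div_iff₀ (by positivity)]
    have g2 : √N * √N = N := Real.mul_self_sqrt hN0.le
    have g3 : 0 ≤ √N := Real.sqrt_nonneg _
    calc 2 * (u * (u * √N)) * (2 * u ^ (4 * k + 3)) = √N * (4 * u ^ (4 * k + 5)) := by ring
      _ ≤ √N * (u * u ^ (4 * k + 5)) := by gcongr
      _ = √N * u ^ (4 * k + 6) := by ring
      _ ≤ √N * √N := by gcongr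
      _ = N := g2
  have h9' : u * √N ≤ u * (u * √N) := by
    have g3 : 0 ≤ √N := Real.sqrt_nonneg _
    apply mul_le_mul_of_nonneg_left _ hu0.le
    nlinarith
  have h10 : N / u ^ (8 * k + 12 + B) ≤ N / (2 * u ^ (4 * k + 3)) := by
    apply div_le_div_of_nonneg_left hN0.le (by positivity)
    calc 2 * u ^ (4 * k + 3) ≤ u * u ^ (4 * k + 3) := by
          gcongr
          linarith
      _ = u ^ (4 * k + 4) := by ring
      _ ≤ u ^ (8 * k + 12 + B) := pow_le_pow_right₀ hu1 (by omega)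
  have h11 : N / u ^ (4 * k + 3) = N / (2 * u ^ (4 * k + 3)) + N / (2 * u ^ (4 * k + 3)) := by
    field_simp
    ring
  linarith

open Classical in
/-- the number of the arguments in `(M, N]` at which all forms of `L` and no form of `G` is chosen -/
noncomputable def cntX {Ω : Type} (A : ℕ → Set Ω) (ω : Ω) (L G : Finset (ℕ × ℕ)) (M N : ℕ) : ℕ :=
  ((Finset.Ioc M N).filter (fun n => (∀ f ∈ L, ω ∈ A (f.1 * n + f.2)) ∧ ∀ f ∈ G, ω ∉ A (f.1 * n + f.2))).card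

/-- many exact patterns for all systems `L` of `k` forms -/
def GoodX {Ω : Type} (P : Set ℕ) (z : ℕ → ℕ) (k x : ℕ) (t : ℝ) (A : ℕ → Set Ω) (ω : Ω) : Prop :=
  ∀ L G : Finset (ℕ × ℕ), L.card = k → ((G.card : ℕ) : ℝ) ≤ Real.log x →
    (∀ f ∈ L ∪ G, 1 ≤ f.1 ∧ f.1 ≤ x ∧ f.2 ≤ x) → Adm P L → (∀ f ∈ G, ∀ n, f.1 * n + f.2 ∉ vals L n) →
    ∀ η : ℝ, (G.card : ℝ) * η ≤ 1 / 8 → (∀ f ∈ G, ∀ n, rho1 P z (f.1 * n + f.2) ≤ η) →
    ∀ N : ℕ, N ≤ x → t ≤ N → (N : ℝ) / t ≤ cntX A ω L G (Nat.log 2 x) N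

lemma GoodX_mono {Ω : Type} {P : Set ℕ} {z : ℕ → ℕ} {k x : ℕ} {t t' : ℝ} {A : ℕ → Set Ω} {ω : Ω} (ht : 0 < t)
    (h : t ≤ t') (hG : GoodX P z k x t A ω) : GoodX P z k x t' A ω := by
  intro L G h1 h2 h3 h4 h5 η h6 h7 N h8 h9
  refine le_trans ?_ (hG L G h1 h2 h3 h4 h5 η h6 h7 N h8 (h.trans h9))
  exact div_le_div_of_nonneg_left (Nat.cast_nonneg N) ht h

lemma In_mem {Ω : Type} {A : ℕ → Set Ω} {m : ℕ} {ω : Ω} : 0 ≤ In A m ω ∧ In A m ω ≤ 1 :=
  ⟨In_nonneg m ω, In_le m ω⟩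

open Classical in
/-- counting: all of `L` and none of `G` -/
lemma count_ge {Ω : Type} {A : ℕ → Set Ω} (k : ℕ) (L G : Finset (ℕ × ℕ)) (M N : ℕ) (ω : Ω) :
    ∑ n ∈ idx k (L, M, N), ∏ m ∈ vals L n, In A m ω -
      ∑ f ∈ G, ∑ n ∈ idx k (L, M, N), In A (f.1 * n + f.2) ω * ∏ m ∈ vals L n, In A m ω ≤ cntX A ω L G M N := by
  rw [Finset.sum_comm, ← Finset.sum_sub_distrib]
  have h1 : (cntX A ω L G M N : ℝ) = ∑ n ∈ Finset.Ioc M N,
      if (∀ f ∈ L, ω ∈ A (f.1 * n + f.2)) ∧ ∀ f ∈ G, ω ∉ A (f.1 * n + f.2) then (1 : ℝ) else 0 := by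
    unfold cntX
    rw [Finset.card_filter]
    push_cast
    rfl
  rw [h1]
  have h2 : idx k (L, M, N) ⊆ Finset.Ioc M N := by
    unfold idx
    exact Finset.filter_subset _ _
  refine le_trans ?_ (Finset.sum_le_sum_of_subset_of_nonneg h2 fun n _ _ => by split_ifs <;> norm_num)
  refine Finset.sum_le_sum fun n _ => ?_
  rw [prod_In L n ω]
  by_cases hL : ∀ f ∈ L, ω ∈ A (f.1 * n + f.2)
  · rw [if_pos hL]
    by_cases hG : ∀ f ∈ G, ω ∉ A (f.1 * n + f.2)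
    · rw [if_pos ⟨hL, hG⟩]
      have h3 : 0 ≤ ∑ f ∈ G, In A (f.1 * n + f.2) ω * (1 : ℝ) := Finset.sum_nonneg fun f _ =>
        mul_nonneg (In_nonneg _ _) zero_le_one
      linarith
    · rw [if_neg fun h => hG h.2]
      push Not at hG
      obtain ⟨f, hf, hfA⟩ := hG
      have h3 : In A (f.1 * n + f.2) ω * (1 : ℝ) ≤ ∑ f ∈ G, In A (f.1 * n + f.2) ω * (1 : ℝ) :=
        Finset.single_le_sum (f := fun f : ℕ × ℕ => In A (f.1 * n + f.2) ω * (1 : ℝ))
          (fun g _ => mul_nonneg (In_nonneg _ _) zero_le_one) hf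
      have h4 : In A (f.1 * n + f.2) ω = 1 := by
        unfold In
        rw [Set.indicator_of_mem hfA]
      rw [h4] at h3
      linarith
  · rw [if_neg hL, if_neg fun h => hL h.1]
    simp

end Pool.Agent.J6H62.CM
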