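import Mathlib
import Pool.Agent.J6H62.CM.Exact

/-! # Many exact patterns (helper62) -/

set_option autoImplicit false
set_option linter.unusedSectionVars false

namespace Pool.Agent.J6H62.CM

open Filter MeasureTheory
open Pool.Agent.R528.RM
open Pool.Agent.J6H13.UM
open scoped Topology

lemma vals_insert (f : ℕ × ℕ) (L : Finset (ℕ × ℕ)) (n : ℕ) :
    vals (insert f L) n = insert (f.1 * n + f.2) (vals L n) := by
  unfold vals
  rw [Finset.image_insert]

lemma idx_insert (k M N : ℕ) (f : ℕ × ℕ) (L : Finset (ℕ × ℕ)) (hf : ∀ n, f.1 * n + f.2 ∉ vals L n) :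
    idx (k + 1) (insert f L, M, N) = idx k (L, M, N) := by
  unfold idx
  refine Finset.filter_congr fun n _ => ?_
  show (vals (insert f L) n).card = k + 1 ↔ (vals L n).card = k
  rw [vals_insert, Finset.card_insert_of_notMem (hf n)]
  omega

/-- **Many exact patterns.** -/
theorem core_exact (k : ℕ) (hk : 0 < k) : ∃ B : ℕ, ∀ {Ω : Type} {m0 : MeasurableSpace Ω} {μ : Measure Ω}
    [IsProbabilityMeasure μ] {ℱ : Filtration ℕ m0} {A : ℕ → Set Ω}
    (_ : ∀ n, MeasurableSet[ℱ n] (A n)) (P : Set ℕ) (z : ℕ → ℕ)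
    (_ : ∀ᵐ ω ∂μ, ∀ ε : ℝ, 0 < ε → ∀ᶠ n : ℕ in atTop,
      |dens μ ℱ A n ω - rho1 P z (n + 1)| ≤ ε * rho1 P z (n + 1))
    (Y : ℕ → ℕ) (_ : ∀ᶠ x : ℕ in atTop, 2 ≤ Y x)
    (_ : ∀ᶠ x : ℕ in atTop, ∀ m, Nat.log 2 x < m → m ≤ x ^ 3 → z m ≤ Y x),
    ∀ᵐ ω ∂μ, ∀ᶠ x : ℕ in atTop, GoodX P z k x (((Y x : ℝ) * Real.log x) ^ B) A ω := by
  classical
  obtain ⟨c, B, hc, hR⟩ := rough_low k
  obtain ⟨C3, hC3, hW⟩ := W0_lin
  obtain ⟨K, hK⟩ := num2 k B c C3 hc hC3
  refine ⟨8 * k + 12 + B, ?_⟩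
  intro Ω m0 μ _ ℱ A hA P z hprof Y hY2 hYz
  filter_upwards [law hA P z hprof k hk, law hA P z hprof (k + 1) (by omega)] with ω hω hω'
  filter_upwards [hω (1 / 4) (by norm_num), hω' 1 one_pos, hY2, hYz, logN.eventually_ge_atTop (max 1 K),
    eventually_ge_atTop 8] with x h1 h1' h2 h3 h4 h5 L G g1 hGc g2' hadm hGL η hη hηρ N g4 haN
  have g2 : ∀ f ∈ L, 1 ≤ f.1 ∧ f.1 ≤ x ∧ f.2 ≤ x := fun f hf => g2' f (Finset.mem_union_left _ hf)
  have g2G : ∀ f ∈ G, 1 ≤ f.1 ∧ f.1 ≤ x ∧ f.2 ≤ x := fun f hf => g2' f (Finset.mem_union_right _ hf)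
  obtain ⟨M, g3⟩ : ∃ M, M = Nat.log 2 x := ⟨_, rfl⟩
  rw [← g3]
  have hl1 : 1 ≤ Real.log x := (le_max_left _ _).trans h4
  have hlK : K ≤ Real.log x := (le_max_right _ _).trans h4
  have hY2' : (2 : ℝ) ≤ Y x := by exact_mod_cast h2
  obtain ⟨u, hu⟩ : ∃ u : ℝ, u = (Y x : ℝ) * Real.log x := ⟨_, rfl⟩
  rw [← hu] at haN ⊢
  have hYu : (Y x : ℝ) ≤ u := by rw [hu]; nlinarith
  have hlu : Real.log x ≤ u := by rw [hu]; nlinarith
  have hMu : (M : ℝ) ≤ u := by
    rw [g3, hu]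
    have := log2_le x (by omega)
    nlinarith
  have hW1 := W0_ge (Y x)
  have hWu : W0 (Y x) ≤ C3 * u := (hW (Y x) (by omega)).trans (by gcongr)
  have hG0 : (0 : ℝ) ≤ (G.card : ℝ) := Nat.cast_nonneg _
  have hnum := hK u N M (W0 (Y x)) (Y x) (Real.log x) G.card (hlK.trans hlu) (by linarith) hYu hl1 hlu hMu hW1 hWu
    hG0 (hGc.trans hlu) haN
  refine hnum.trans ?_
  -- the expected number
  have hMN : M ≤ N := by
    have h6 : u ≤ u ^ (8 * k + 12 + B) := le_self_pow₀ (by linarith) (by omega)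
    have h7 : (M : ℝ) ≤ N := hMu.trans (h6.trans haN)
    exact_mod_cast h7
  have hrough := hR P L g1.le hadm M N (Y x) hMN h2
  obtain ⟨H, hH⟩ : ∃ H : Finset ℕ, H = (RR P L M N (Y x)).filter (fun n => (vals L n).card = k) := ⟨_, rfl⟩
  have hGcard : ((RR P L M N (Y x)).card : ℝ) - (k : ℝ) ^ 2 ≤ H.card := by
    have h6 := few_coll L (RR P L M N (Y x))
    rw [g1] at h6
    have h7 : H.card + ((RR P L M N (Y x)).filter (fun n => (vals L n).card ≠ k)).card =
        (RR P L M N (Y x)).card := by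
      rw [hH]
      exact Finset.card_filter_add_card_filter_not _
    have h8 : ((RR P L M N (Y x)).card : ℝ) ≤ H.card + (k : ℝ) ^ 2 := by
      exact_mod_cast (by omega : (RR P L M N (Y x)).card ≤ H.card + k ^ 2)
    linarith
  have hGsub : H ⊆ idx k (L, M, N) := by
    intro n hn
    rw [hH, Finset.mem_filter] at hn
    unfold idx
    rw [Finset.mem_filter]
    refine ⟨?_, hn.2⟩
    have := hn.1
    unfold RR at this
    exact (Finset.mem_filter.1 this).1
  have hterm : ∀ n ∈ H, (1 / (3 * Real.log x)) ^ k ≤ ∏ m ∈ vals L n, rho1 P z m := by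
    intro n hn
    rw [hH, Finset.mem_filter] at hn
    obtain ⟨hn1, hn2⟩ := hn
    unfold RR at hn1
    rw [Finset.mem_filter, Finset.mem_Ioc] at hn1
    obtain ⟨⟨hn3, hn4⟩, hn5⟩ := hn1
    rw [← hn2, ← Finset.prod_const]
    apply Finset.prod_le_prod
    · intro m _
      positivity
    · intro m hm
      unfold vals at hm
      obtain ⟨f, hf, rfl⟩ := Finset.mem_image.1 hm
      obtain ⟨f1, f2, f3⟩ := g2 f hf
      have hmlow : n ≤ f.1 * n + f.2 := by
        have : n ≤ f.1 * n := Nat.le_mul_of_pos_left n (by omega)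
        omega
      have hlog3 : 3 ≤ Nat.log 2 x := Nat.le_log_of_pow_le (by norm_num) h5
      have hmup : f.1 * n + f.2 ≤ x ^ 3 := by
        have q1 : f.1 * n ≤ x * x := Nat.mul_le_mul f2 (hn4.trans g4)
        have q2 : x * x + x ≤ x ^ 3 := by nlinarith
        omega
      have hz : z (f.1 * n + f.2) ≤ Y x := h3 _ (by omega) hmup
      have hrg : Rough P z (f.1 * n + f.2) := by
        intro q hqP hq hqz
        exact hn5 q hqP hq (hqz.trans hz) f hf
      unfold rho1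
      rw [if_pos hrg]
      have hm3 : (3 : ℝ) < ((f.1 * n + f.2 : ℕ) : ℝ) := by exact_mod_cast (by omega : 3 < f.1 * n + f.2)
      have hlm : 0 < Real.log ((f.1 * n + f.2 : ℕ) : ℝ) := Real.log_pos (by linarith)
      have hlm2 : Real.log ((f.1 * n + f.2 : ℕ) : ℝ) ≤ 3 * Real.log x := by
        have h6 : ((f.1 * n + f.2 : ℕ) : ℝ) ≤ (x : ℝ) ^ 3 := by exact_mod_cast hmup
        have h7 := Real.log_le_log (by linarith) h6
        rwa [Real.log_pow] at h7
      apply le_min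
      · rw [div_le_one (by positivity)]
        linarith
      · have := W_ge P (z (f.1 * n + f.2))
        gcongr
  obtain ⟨E, hE'⟩ : ∃ E : ℝ, E = ∑ n ∈ idx k (L, M, N), ∏ m ∈ vals L n, rho1 P z m := ⟨_, rfl⟩
  have hE0 : 0 ≤ E := by
    rw [hE']
    exact Finset.sum_nonneg fun n _ => Finset.prod_nonneg fun m _ => (rho1_bounds P z m).1
  have hE : (c * ((N : ℝ) - M) / W0 (Y x) ^ (2 * k) - (Y x : ℝ) ^ B - (k : ℝ) ^ 2) *
      (1 / (3 * Real.log x)) ^ k ≤ E := by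
    calc _ ≤ (H.card : ℝ) * (1 / (3 * Real.log x)) ^ k := by
          apply mul_le_mul_of_nonneg_right _ (by positivity)
          linarith
      _ = ∑ _n ∈ H, (1 / (3 * Real.log x)) ^ k := by rw [Finset.sum_const, nsmul_eq_mul]
      _ ≤ ∑ n ∈ H, ∏ m ∈ vals L n, rho1 P z m := Finset.sum_le_sum hterm
      _ ≤ ∑ n ∈ idx k (L, M, N), ∏ m ∈ vals L n, rho1 P z m :=
          Finset.sum_le_sum_of_subset_of_nonneg hGsub fun n _ _ =>
          Finset.prod_nonneg fun m _ => (rho1_bounds P z m).1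
      _ = E := hE'.symm
  have hicard : ((idx k (L, M, N)).card : ℝ) ≤ N := by
    have h7 : (idx k (L, M, N)).card ≤ N := by
      unfold idx
      refine (Finset.card_filter_le _ _).trans ?_
      rw [Nat.card_Ioc]
      exact Nat.sub_le _ _
    exact_mod_cast h7
  -- the law for `L`
  have ha : (L, M, N) ∈ Fam k x := mem_Fam.2 ⟨⟨g1, g2⟩, g3, g4⟩
  have hlaw := (abs_le.1 (h1 (L, M, N) ha)).1
  have hsq : 2 * (k : ℝ) * k * √(2 * ((3 * k + 2 : ℕ) + 2) * Real.log x * (idx k (L, M, N)).card) ≤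
      2 * (k : ℝ) * k * √(2 * ((3 * k + 2 : ℕ) + 2) * Real.log x * N) := by
    gcongr
  -- the law for `insert f L`
  have hf1 : ∀ f ∈ G, ∑ n ∈ idx k (L, M, N), In A (f.1 * n + f.2) ω * ∏ m ∈ vals L n, In A m ω ≤
      2 * (η * E) + 2 * (k + 1 : ℕ) * (k + 1 : ℕ) * √(2 * ((3 * (k + 1) + 2 : ℕ) + 2) * Real.log x * N) := by
    intro f hf
    have hfL : f ∉ L := by
      intro hfL
      apply hGL f hf 0
      unfold vals
      exact Finset.mem_image_of_mem _ hfL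
    have hb : (insert f L, M, N) ∈ Fam (k + 1) x := by
      refine mem_Fam.2 ⟨⟨by rw [Finset.card_insert_of_notMem hfL, g1], fun g hg => ?_⟩, g3, g4⟩
      rcases Finset.mem_insert.1 hg with rfl | hg
      · exact g2G _ hf
      · exact g2 g hg
    have h6 := (abs_le.1 (h1' (insert f L, M, N) hb)).2
    have ei : idx (k + 1) (insert f L, M, N) = idx k (L, M, N) := idx_insert k M N f L (hGL f hf)
    rw [ei] at h6
    have e1 : ∑ n ∈ idx k (L, M, N), ∏ m ∈ vals (insert f L) n, In A m ω =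
        ∑ n ∈ idx k (L, M, N), In A (f.1 * n + f.2) ω * ∏ m ∈ vals L n, In A m ω := by
      refine Finset.sum_congr rfl fun n _ => ?_
      rw [vals_insert, Finset.prod_insert (hGL f hf n)]
    have e2 : ∑ n ∈ idx k (L, M, N), ∏ m ∈ vals (insert f L) n, rho1 P z m ≤ η * E := by
      rw [hE', Finset.mul_sum]
      refine Finset.sum_le_sum fun n _ => ?_
      rw [vals_insert, Finset.prod_insert (hGL f hf n)]
      exact mul_le_mul_of_nonneg_right (hηρ f hf n) (Finset.prod_nonneg fun m _ => (rho1_bounds P z m).1)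
    have h7 : 2 * ((k + 1 : ℕ) : ℝ) * (k + 1 : ℕ) *
        √(2 * ((3 * (k + 1) + 2 : ℕ) + 2) * Real.log x * (idx k (L, M, N)).card) ≤
        2 * ((k + 1 : ℕ) : ℝ) * (k + 1 : ℕ) * √(2 * ((3 * (k + 1) + 2 : ℕ) + 2) * Real.log x * N) := by
      gcongr
    simp only [] at h6
    rw [e1] at h6
    have h8 : ∑ n ∈ idx k (L, M, N), In A (f.1 * n + f.2) ω * ∏ m ∈ vals L n, In A m ω ≤
        2 * ∑ n ∈ idx k (L, M, N), ∏ m ∈ vals (insert f L) n, rho1 P z m +
        2 * ((k + 1 : ℕ) : ℝ) * (k + 1 : ℕ) *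
        √(2 * ((3 * (k + 1) + 2 : ℕ) + 2) * Real.log x * (idx k (L, M, N)).card) := by
      linarith
    linarith
  have hf2 := Finset.sum_le_sum hf1
  rw [Finset.sum_const, nsmul_eq_mul] at hf2
  have hcount := count_ge (A := A) k L G M N ω
  have hηE : (G.card : ℝ) * (2 * (η * E)) ≤ 1 / 4 * E := by
    have h6 : (G.card : ℝ) * (2 * (η * E)) = 2 * ((G.card : ℝ) * η) * E := by ring
    rw [h6]
    apply mul_le_mul_of_nonneg_right _ hE0
    linarith
  rw [mul_add] at hf2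
  rw [← hE'] at hlaw
  have hfin : (1 / 2) * ((c * ((N : ℝ) - M) / W0 (Y x) ^ (2 * k) - (Y x : ℝ) ^ B - (k : ℝ) ^ 2) *
      (1 / (3 * Real.log x)) ^ k) ≤ 1 / 2 * E := by linarith
  simp only [] at hlaw
  linarith

end Pool.Agent.J6H62.CM
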