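import Mathlib
import Pool.Agent.J6H62.CM.Core

/-! # Exact patterns: the two forms of the main theorem, and runs in arithmetic progression (helper62) -/

set_option autoImplicit false
set_option linter.unusedSectionVars false

namespace Pool.Agent.J6H62.CM

open Filter MeasureTheory Asymptotics
open Pool.Agent.R528.RM
open Pool.Agent.J6H13.UM
open scoped Topology

/-- sieves up to a power of the logarithm -/
theorem good_log (k : ℕ) (hk : 0 < k) (C : ℕ) : ∃ D : ℕ, ∀ {Ω : Type} {m0 : MeasurableSpace Ω} {μ : Measure Ω}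
    [IsProbabilityMeasure μ] {ℱ : Filtration ℕ m0} {A : ℕ → Set Ω}
    (P : Set ℕ) (z : ℕ → ℕ) (_ : ∀ᶠ n : ℕ in atTop, (z n : ℝ) ≤ Real.log n ^ C) (_ : IsModel μ ℱ A P z),
    ∀ᵐ ω ∂μ, ∀ᶠ x : ℕ in atTop, GoodX P z k x (Real.log x ^ D) A ω := by
  obtain ⟨B, hB⟩ := core_exact k hk
  refine ⟨(C + 2) * B, ?_⟩
  intro Ω m0 μ _ ℱ A P z hz hM
  have hV := short P C z hz
  have h := hB hM.adapted P z (profile P z hV hM.sieved hM.density) (fun x => ⌊(3 * Real.log x) ^ C⌋₊ + 2)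
    (Eventually.of_forall fun x => by omega)
    (by
      obtain ⟨m1, hm1⟩ := eventually_atTop.1 hz
      filter_upwards [eventually_ge_atTop (2 ^ (m1 + 3))] with x hx m hm1' hm2
      have h1 : m1 + 3 ≤ Nat.log 2 x := Nat.le_log_of_pow_le (by norm_num) hx
      have h2 : (z m : ℝ) ≤ (3 * Real.log x) ^ C := by
        refine (hm1 m (by omega)).trans ?_
        have h3 : (0 : ℝ) < m := by exact_mod_cast (by omega : 0 < m)
        have h4 : (m : ℝ) ≤ (x : ℝ) ^ 3 := by exact_mod_cast hm2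
        have h5 := Real.log_le_log h3 h4
        rw [Real.log_pow] at h5
        have h6 : 0 ≤ Real.log (m : ℝ) := Real.log_natCast_nonneg m
        exact pow_le_pow_left₀ h6 (by exact_mod_cast h5) C
      have h3 := Nat.le_floor h2
      omega)
  filter_upwards [h] with ω hω
  filter_upwards [hω, logN.eventually_ge_atTop (3 ^ C + 2)] with x h1 h2
  have hone : (1 : ℝ) ≤ 3 ^ C := one_le_pow₀ (by norm_num)
  have hl : 1 ≤ Real.log x := by linarith
  have hu : ((⌊(3 * Real.log x) ^ C⌋₊ + 2 : ℕ) : ℝ) * Real.log x ≤ Real.log x ^ (C + 2) := by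
    have h3 : ((⌊(3 * Real.log x) ^ C⌋₊ : ℕ) : ℝ) ≤ 3 ^ C * Real.log x ^ C := by
      rw [← mul_pow]
      exact Nat.floor_le (by positivity)
    have h4 : 1 ≤ Real.log x ^ C := one_le_pow₀ hl
    push_cast
    calc ((⌊(3 * Real.log x) ^ C⌋₊ : ℝ) + 2) * Real.log x ≤ ((3 ^ C + 2) * Real.log x ^ C) * Real.log x := by
          gcongr
          nlinarith
      _ ≤ (Real.log x * Real.log x ^ C) * Real.log x := by gcongr
      _ = Real.log x ^ (C + 2) := by ring
  have hu0 : 0 < ((⌊(3 * Real.log x) ^ C⌋₊ + 2 : ℕ) : ℝ) * Real.log x := by positivity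
  have huB : (((⌊(3 * Real.log x) ^ C⌋₊ + 2 : ℕ) : ℝ) * Real.log x) ^ B ≤ Real.log x ^ ((C + 2) * B) := by
    rw [pow_mul]
    exact pow_le_pow_left₀ hu0.le hu B
  exact GoodX_mono (pow_pos hu0 B) huB h1

/-- sieves up to a small power -/
theorem good_pow (k : ℕ) (hk : 0 < k) (ε : ℝ) (hε : 0 < ε) : ∃ δ : ℝ, 0 < δ ∧ ∀ {Ω : Type} {m0 : MeasurableSpace Ω}
    {μ : Measure Ω} [IsProbabilityMeasure μ] {ℱ : Filtration ℕ m0} {A : ℕ → Set Ω}
    (P : Set ℕ) (z : ℕ → ℕ) (_ : ∀ᶠ n : ℕ in atTop, (z n : ℝ) ≤ (n : ℝ) ^ δ) (_ : IsModel μ ℱ A P z),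
    ∀ᵐ ω ∂μ, ∀ᶠ x : ℕ in atTop, GoodX P z k x ((x : ℝ) ^ ε) A ω := by
  obtain ⟨B, hB⟩ := core_exact k hk
  obtain ⟨δ0, hδ0, hW⟩ := W_small
  have hB0 : (0 : ℝ) < B + 1 := by positivity
  obtain ⟨δ, hδ⟩ : ∃ δ : ℝ, δ = min δ0 (ε / (6 * (B + 1))) := ⟨_, rfl⟩
  have hδpos : 0 < δ := by rw [hδ]; exact lt_min hδ0 (by positivity)
  have hδ1 : δ ≤ δ0 := hδ ▸ min_le_left _ _
  have hδ2 : δ ≤ ε / (6 * (B + 1)) := hδ ▸ min_le_right _ _
  refine ⟨δ, hδpos, ?_⟩
  intro Ω m0 μ _ ℱ A P z hz hM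
  have hV := hW P z (by
    filter_upwards [hz, eventually_ge_atTop 1] with n h1 h2
    refine h1.trans (Real.rpow_le_rpow_of_exponent_le ?_ hδ1)
    exact_mod_cast h2)
  have h := hB hM.adapted P z (profile P z hV hM.sieved hM.density) (fun x => ⌊(x : ℝ) ^ (3 * δ)⌋₊ + 2)
    (Eventually.of_forall fun x => by omega)
    (by
      obtain ⟨m1, hm1⟩ := eventually_atTop.1 hz
      filter_upwards [eventually_ge_atTop (2 ^ (m1 + 3))] with x hx m hm1' hm2
      have h1 : m1 + 3 ≤ Nat.log 2 x := Nat.le_log_of_pow_le (by norm_num) hx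
      have h2 : (z m : ℝ) ≤ (x : ℝ) ^ (3 * δ) := by
        refine (hm1 m (by omega)).trans ?_
        have h4 : (m : ℝ) ≤ (x : ℝ) ^ (3 : ℝ) := by
          have : (m : ℝ) ≤ (x : ℝ) ^ 3 := by exact_mod_cast hm2
          exact_mod_cast this
        calc (m : ℝ) ^ δ ≤ ((x : ℝ) ^ (3 : ℝ)) ^ δ := by gcongr
          _ = (x : ℝ) ^ (3 * δ) := by rw [← Real.rpow_mul (Nat.cast_nonneg x)]
      have h3 := Nat.le_floor h2
      omega)
  have hlogs := (isLittleO_log_rpow_rpow_atTop (1 : ℝ) (show (0 : ℝ) < δ by positivity)).bound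
    (show (0 : ℝ) < 1 / 3 by norm_num)
  filter_upwards [h] with ω hω
  filter_upwards [hω, logN.eventually_ge_atTop 1, tendsto_natCast_atTop_atTop.eventually hlogs,
    eventually_ge_atTop 1] with x h1 h2 h4 h5
  have hx1 : (1 : ℝ) ≤ x := by exact_mod_cast h5
  have hx0 : (0 : ℝ) < x := by linarith
  rw [Real.norm_eq_abs, Real.norm_eq_abs, abs_of_nonneg (Real.rpow_nonneg (by linarith) _),
    abs_of_nonneg (Real.rpow_nonneg hx0.le _), Real.rpow_one] at h4
  have hu : ((⌊(x : ℝ) ^ (3 * δ)⌋₊ + 2 : ℕ) : ℝ) * Real.log x ≤ (x : ℝ) ^ (4 * δ) := by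
    have h3 : ((⌊(x : ℝ) ^ (3 * δ)⌋₊ : ℕ) : ℝ) ≤ (x : ℝ) ^ (3 * δ) := Nat.floor_le (by positivity)
    have h6 : 1 ≤ (x : ℝ) ^ (3 * δ) := Real.one_le_rpow hx1 (by positivity)
    push_cast
    calc ((⌊(x : ℝ) ^ (3 * δ)⌋₊ : ℝ) + 2) * Real.log x ≤ (3 * (x : ℝ) ^ (3 * δ)) * (1 / 3 * (x : ℝ) ^ δ) := by
          gcongr
          linarith
      _ = (x : ℝ) ^ (3 * δ) * (x : ℝ) ^ δ := by ring
      _ = (x : ℝ) ^ (4 * δ) := by
        rw [← Real.rpow_add hx0]
        congr 1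
        ring
  have hu0 : 0 < ((⌊(x : ℝ) ^ (3 * δ)⌋₊ + 2 : ℕ) : ℝ) * Real.log x := by positivity
  have huB : (((⌊(x : ℝ) ^ (3 * δ)⌋₊ + 2 : ℕ) : ℝ) * Real.log x) ^ B ≤ (x : ℝ) ^ ε := by
    calc (((⌊(x : ℝ) ^ (3 * δ)⌋₊ + 2 : ℕ) : ℝ) * Real.log x) ^ B ≤ ((x : ℝ) ^ (4 * δ)) ^ B :=
          pow_le_pow_left₀ hu0.le hu B
      _ = (x : ℝ) ^ (4 * δ * B) := by rw [← Real.rpow_natCast, ← Real.rpow_mul hx0.le]
      _ ≤ (x : ℝ) ^ ε := by
        apply Real.rpow_le_rpow_of_exponent_le hx1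
        rw [le_div_iff₀ (by positivity)] at hδ2
        have : (0 : ℝ) ≤ δ * B := by positivity
        nlinarith
  exact GoodX_mono (pow_pos hu0 B) huB h1

/-! ### Arithmetic progressions -/

/-- the forms `t + X + i d`, `i < k` -/
def apL (k d X : ℕ) : Finset (ℕ × ℕ) := (Finset.range k).image (fun i => (1, X + i * d))

lemma mem_apL {k d X : ℕ} {f : ℕ × ℕ} : f ∈ apL k d X ↔ ∃ i < k, (1, X + i * d) = f := by
  unfold apL
  simp only [Finset.mem_image, Finset.mem_range]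

lemma apL_card {k d X : ℕ} (hd : 0 < d) : (apL k d X).card = k := by
  unfold apL
  rw [Finset.card_image_of_injective, Finset.card_range]
  intro i j h
  simp only [Prod.mk.injEq, true_and] at h
  exact Nat.eq_of_mul_eq_mul_right hd (by omega)

/-- the forms `t + X + j`, `0 < j < (k - 1) d`, `d ∤ j` -/
def gapL (k d X : ℕ) : Finset (ℕ × ℕ) :=
  ((Finset.range ((k - 1) * d)).filter (fun j => ¬ d ∣ j)).image (fun j => (1, X + j))

lemma mem_gapL {k d X : ℕ} {f : ℕ × ℕ} : f ∈ gapL k d X ↔ ∃ j < (k - 1) * d, ¬ d ∣ j ∧ (1, X + j) = f := by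
  unfold gapL
  simp only [Finset.mem_image, Finset.mem_filter, Finset.mem_range, and_assoc]

lemma gapL_card (k d X : ℕ) : (gapL k d X).card ≤ k * d := by
  unfold gapL
  refine Finset.card_image_le.trans ((Finset.card_filter_le _ _).trans ?_)
  rw [Finset.card_range]
  exact Nat.mul_le_mul_right _ (Nat.sub_le _ _)

lemma gap_notMem {k d X : ℕ} : ∀ f ∈ gapL k d X, ∀ n, f.1 * n + f.2 ∉ vals (apL k d X) n := by
  intro f hf n h
  obtain ⟨j, _, hj2, rfl⟩ := mem_gapL.1 hf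
  unfold vals at h
  obtain ⟨g, hg, hgn⟩ := Finset.mem_image.1 h
  obtain ⟨i, _, rfl⟩ := mem_apL.1 hg
  apply hj2
  have : j = i * d := by
    simp only at hgn
    omega
  rw [this]
  exact Dvd.intro_left i rfl

lemma ap_adm (P : Set ℕ) (k d X : ℕ) (hPd : ∀ q ∈ P, q.Prime → q ≤ k → q ∣ d) : Adm P (apL k d X) := by
  intro q hqP hq
  by_cases hqk : q ≤ k
  · obtain ⟨e, he⟩ := hPd q hqP hq hqk
    refine ⟨1 + (q - 1) * X, fun f hf => ?_⟩
    obtain ⟨i, _, rfl⟩ := mem_apL.1 hf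
    simp only [one_mul]
    intro hdvd
    obtain ⟨r, hr⟩ : ∃ r, q = r + 1 := ⟨q - 1, by have := hq.pos; omega⟩
    have e1 : 1 + (q - 1) * X + (X + i * d) = 1 + q * (X + i * e) := by
      rw [he, hr, Nat.add_sub_cancel]
      ring
    rw [e1, Nat.dvd_add_left (Dvd.intro _ rfl)] at hdvd
    exact hq.one_lt.ne' (Nat.dvd_one.1 hdvd)
  · push Not at hqk
    by_contra hcon
    push Not at hcon
    have h1 : ∀ m ∈ Finset.range q, ∃ i ∈ Finset.range k, q ∣ m + (X + i * d) := by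
      intro m _
      obtain ⟨f, hf, hfm⟩ := hcon m
      obtain ⟨i, hi, rfl⟩ := mem_apL.1 hf
      refine ⟨i, Finset.mem_range.2 hi, ?_⟩
      simpa only [one_mul] using hfm
    choose! g hg1 hg2 using h1
    obtain ⟨a, ha, b, hb, hab, hgab⟩ := Finset.exists_ne_map_eq_of_card_lt_of_maps_to
      (s := Finset.range q) (t := Finset.range k) (by rw [Finset.card_range, Finset.card_range]; exact hqk)
      (f := g) (fun m hm => hg1 m hm)
    have h2 := hg2 a ha
    have h3 := hg2 b hb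
    rw [hgab] at h2
    rw [Finset.mem_range] at ha hb
    rcases Nat.lt_or_gt_of_ne hab with h4 | h4
    · have h5 := (Nat.dvd_sub h3 h2)
      have e1 : b + (X + g b * d) - (a + (X + g b * d)) = b - a := by omega
      rw [e1] at h5
      have := Nat.le_of_dvd (by omega) h5
      omega
    · have h5 := (Nat.dvd_sub h2 h3)
      have e1 : a + (X + g b * d) - (b + (X + g b * d)) = a - b := by omega
      rw [e1] at h5
      have := Nat.le_of_dvd (by omega) h5
      omega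

/-- the chosen integers in `[n, n + (k - 1) d]` are exactly `n, n + d, …, n + (k - 1) d` -/
def Run (S : Set ℕ) (k d n : ℕ) : Prop := ∀ m, n ≤ m → m ≤ n + (k - 1) * d → (m ∈ S ↔ d ∣ m - n)

/-- runs in short intervals -/
theorem run_short {Ω : Type} (P : Set ℕ) (z : ℕ → ℕ) (k : ℕ) (hk : 0 < k) (T T2 : ℕ → ℝ) (A : ℕ → Set Ω) (ω : Ω)
    (hT0 : ∀ᶠ X : ℕ in atTop, 0 < T (2 * X)) (hT : ∀ᶠ X : ℕ in atTop, T (2 * X) ≤ T2 X)
    (hG : ∀ᶠ x : ℕ in atTop, GoodX P z k x (T x) A ω) :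
    ∀ᶠ X : ℕ in atTop, ∀ N : ℕ, N ≤ X → T2 X ≤ N → ∀ d : ℕ, 1 ≤ d →
      (∀ q ∈ P, q.Prime → q ≤ k → q ∣ d) → (∀ m, X ≤ m → 8 * k * d * W P (z m) ≤ Real.log m) →
      (N : ℝ) / T2 X ≤ ({n : ℕ | X < n ∧ n ≤ X + N ∧ Run {m | ω ∈ A m} k d n}.ncard : ℝ) := by
  classical
  have htend : Tendsto (fun X : ℕ => 2 * X) atTop atTop :=
    tendsto_atTop.2 fun b => by
      filter_upwards [eventually_ge_atTop b] with X hX
      omega
  filter_upwards [htend.eventually hG, hT, hT0, eventually_ge_atTop 1] with X h1 h2 h0 h5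
    N hN1 hN2 d hd1 hPd hdW
  have hX0 : (0 : ℝ) < X := by exact_mod_cast h5
  have hk1 : (1 : ℝ) ≤ k := by exact_mod_cast hk
  have hd1' : (1 : ℝ) ≤ d := by exact_mod_cast hd1
  have hkd0 : (0 : ℝ) < ((k * d : ℕ) : ℝ) := by exact_mod_cast Nat.mul_pos hk hd1
  have h3 : ((k * d : ℕ) : ℝ) ≤ Real.log X := by
    have h6 := hdW X le_rfl
    have h7 := W_ge P (z X)
    push_cast
    have h8 : 0 < (k : ℝ) * d := by positivity
    nlinarith
  have hkdX : k * d ≤ X := by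
    have h6 : ((k * d : ℕ) : ℝ) ≤ X := h3.trans ((Real.log_le_sub_one_of_pos hX0).trans (by linarith))
    exact_mod_cast h6
  have hcardG : ((gapL k d X).card : ℝ) ≤ ((k * d : ℕ) : ℝ) := by
    exact_mod_cast gapL_card k d X
  have hlog2 : Real.log X ≤ Real.log ((2 * X : ℕ) : ℝ) := by
    apply Real.log_le_log hX0
    exact_mod_cast (by omega : X ≤ 2 * X)
  -- a bound for the densities
  have hη1 : ((gapL k d X).card : ℝ) * (1 / (8 * ((k * d : ℕ) : ℝ))) ≤ 1 / 8 := by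
    rw [mul_one_div, div_le_iff₀ (by positivity)]
    linarith
  have hη2 : ∀ f ∈ gapL k d X, ∀ n, rho1 P z (f.1 * n + f.2) ≤ 1 / (8 * ((k * d : ℕ) : ℝ)) := by
    intro f hf n
    obtain ⟨j, _, _, rfl⟩ := mem_gapL.1 hf
    have h8 := hdW (1 * n + (X + j)) (by omega)
    have h9 : rho1 P z (1 * n + (X + j)) ≤ W P (z (1 * n + (X + j))) / Real.log ((1 * n + (X + j) : ℕ) : ℝ) := by
      unfold rho1
      split_ifs
      · exact min_le_right _ _
      · exact div_nonneg (zero_le_one.trans (W_ge _ _)) (Real.log_natCast_nonneg _)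
    refine h9.trans ?_
    have h10 := W_ge P (z (1 * n + (X + j)))
    have h11 : 0 < Real.log ((1 * n + (X + j) : ℕ) : ℝ) := by
      refine lt_of_lt_of_le ?_ h8
      positivity
    rw [div_le_div_iff₀ h11 (by positivity)]
    push_cast at h8 ⊢
    linarith
  have h6 := h1 (apL k d X) (gapL k d X) (apL_card (by omega)) (hcardG.trans (h3.trans hlog2))
    (by
      intro f hf
      rcases Finset.mem_union.1 hf with hf | hf
      · obtain ⟨i, hi, rfl⟩ := mem_apL.1 hf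
        have : i * d ≤ k * d := Nat.mul_le_mul_right _ hi.le
        simp only
        omega
      · obtain ⟨j, hj, _, rfl⟩ := mem_gapL.1 hf
        have : (k - 1) * d ≤ k * d := Nat.mul_le_mul_right _ (Nat.sub_le _ _)
        simp only
        omega)
    (ap_adm P k d X hPd) gap_notMem _ hη1 hη2 N (by omega) (h2.trans hN2)
  refine (div_le_div_of_nonneg_left (Nat.cast_nonneg N) h0 h2).trans (h6.trans ?_)
  have hfin : {n : ℕ | X < n ∧ n ≤ X + N ∧ Run {m | ω ∈ A m} k d n}.Finite :=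
    (Set.finite_le_nat (X + N)).subset fun n hn => hn.2.1
  have h7 : cntX A ω (apL k d X) (gapL k d X) (Nat.log 2 (2 * X)) N ≤
      {n : ℕ | X < n ∧ n ≤ X + N ∧ Run {m | ω ∈ A m} k d n}.ncard := by
    unfold cntX
    rw [← Finset.card_image_of_injective (f := fun t : ℕ => t + X) _ (fun a b hab => by
      simp only at hab
      omega), ← Set.ncard_coe_finset]
    apply Set.ncard_le_ncard _ hfin
    intro n hn
    rw [Finset.mem_coe, Finset.mem_image] at hn
    obtain ⟨t, ht, rfl⟩ := hn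
    rw [Finset.mem_filter, Finset.mem_Ioc] at ht
    obtain ⟨⟨t1, t2⟩, t3, t4⟩ := ht
    refine ⟨by omega, by omega, ?_⟩
    intro m hm1 hm2
    obtain ⟨j, hj⟩ : ∃ j, j = m - (t + X) := ⟨_, rfl⟩
    have hmj : m = t + (X + j) := by omega
    have hj2 : j ≤ (k - 1) * d := by omega
    change ω ∈ A m ↔ _
    rw [← hj]
    constructor
    · intro hmA
      by_contra hdj
      have hj3 : j < (k - 1) * d := by
        rcases Nat.lt_or_eq_of_le hj2 with h | h
        · exact h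
        · exact absurd (h ▸ Dvd.intro_left (k - 1) rfl) hdj
      apply t4 (1, X + j) (mem_gapL.2 ⟨j, hj3, hdj, rfl⟩)
      simp only [one_mul]
      rw [← hmj]
      exact hmA
    · rintro ⟨i, hi⟩
      have hik : i < k := by
        by_contra hik
        push Not at hik
        have : k * d ≤ i * d := Nat.mul_le_mul_right _ hik
        have e1 : k * d = (k - 1) * d + d := by
          obtain ⟨k', rfl⟩ : ∃ k', k = k' + 1 := ⟨k - 1, by omega⟩
          rw [Nat.add_sub_cancel]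
          ring
        rw [hi, mul_comm d i] at hj2
        omega
      have h8 := t3 (1, X + i * d) (mem_apL.2 ⟨i, hik, rfl⟩)
      simp only [one_mul] at h8
      rw [hmj, hi, mul_comm d i]
      exact h8
  exact_mod_cast h7

end Pool.Agent.J6H62.CM
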