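import Mathlib
import Pool.Agent.J6H62.CM.Main

/-! # Bounds for the densities (helper62) -/

set_option autoImplicit false
set_option linter.unusedSectionVars false

namespace Pool.Agent.J6H62.CM

open Filter MeasureTheory Asymptotics
open Pool.Agent.R528.RM
open Pool.Agent.J6H13.UM
open scoped Topology

/-- sieves up to a small power: `W ≤ η log n` -/
lemma dens_pow (η : ℝ) (hη : 0 < η) : ∃ δ : ℝ, 0 < δ ∧ ∀ (P : Set ℕ) (z : ℕ → ℕ),
    (∀ᶠ n : ℕ in atTop, (z n : ℝ) ≤ (n : ℝ) ^ δ) → ∀ᶠ n : ℕ in atTop, W P (z n) ≤ η * Real.log n := by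
  obtain ⟨C₁, C₂, hC₁, hC₂, hW⟩ := W0_bound
  refine ⟨η / (2 * C₂), by positivity, fun P z hz => ?_⟩
  filter_upwards [hz, logN.eventually_gt_atTop (2 * C₁ / η), eventually_gt_atTop 1] with n h1 h2 h3
  have hn : (1 : ℝ) < n := by exact_mod_cast h3
  have hL : 0 < Real.log n := Real.log_pos hn
  rw [div_lt_iff₀ hη] at h2
  have h4 : Real.log (z n) ≤ η / (2 * C₂) * Real.log n := by
    rcases Nat.eq_zero_or_pos (z n) with h5 | h5
    · rw [h5, Nat.cast_zero, Real.log_zero]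
      positivity
    · have h6 : (0 : ℝ) < z n := by exact_mod_cast h5
      have h7 := Real.log_le_log h6 h1
      rwa [Real.log_rpow (by linarith)] at h7
  have h5 := (W_le P (z n)).trans (hW (z n))
  have h6 : C₂ * Real.log (z n) ≤ η / 2 * Real.log n := by
    calc C₂ * Real.log (z n) ≤ C₂ * (η / (2 * C₂) * Real.log n) := by gcongr
      _ = η / 2 * Real.log n := by field_simp
  linarith

/-- runs, sieves up to a small power -/
theorem runs_pow (k : ℕ) (hk : 0 < k) (ε : ℝ) (hε : 0 < ε) : ∃ δ : ℝ, 0 < δ ∧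
    ∀ {Ω : Type} {m0 : MeasurableSpace Ω} {μ : Measure Ω} [IsProbabilityMeasure μ] {ℱ : Filtration ℕ m0}
    {A : ℕ → Set Ω} (P : Set ℕ) (z : ℕ → ℕ) (_ : ∀ᶠ n : ℕ in atTop, (z n : ℝ) ≤ (n : ℝ) ^ δ)
    (_ : IsModel μ ℱ A P z), ∀ᵐ ω ∂μ, ∀ᶠ X : ℕ in atTop, ∀ N : ℕ, N ≤ X → (X : ℝ) ^ ε ≤ N →
      ∀ d : ℕ, 1 ≤ d → (∀ q ∈ P, q.Prime → q ≤ k → q ∣ d) →
      (∀ m, X ≤ m → 8 * k * d * W P (z m) ≤ Real.log m) →
      (N : ℝ) / (X : ℝ) ^ ε ≤ ({n : ℕ | X < n ∧ n ≤ X + N ∧ Run {m | ω ∈ A m} k d n}.ncard : ℝ) := by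
  obtain ⟨δ1, hδ1, h1⟩ := good_pow k hk (ε / 2) (by positivity)
  refine ⟨δ1, hδ1, ?_⟩
  intro Ω m0 μ _ ℱ A P z hz hM
  filter_upwards [h1 P z hz hM] with ω hω
  refine run_short P z k hk (fun x : ℕ => (x : ℝ) ^ (ε / 2)) (fun x : ℕ => (x : ℝ) ^ ε) A ω ?_ ?_ hω
  · filter_upwards [eventually_ge_atTop 1] with X hX
    have : (0 : ℝ) < ((2 * X : ℕ) : ℝ) := by exact_mod_cast (by omega : 0 < 2 * X)
    positivity
  · filter_upwards [eventually_ge_atTop 2] with X hX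
    have h3 : ((2 * X : ℕ) : ℝ) ≤ (X : ℝ) ^ (2 : ℝ) := by
      have : 2 * X ≤ X ^ 2 := by nlinarith
      have h4 : ((2 * X : ℕ) : ℝ) ≤ (X : ℝ) ^ 2 := by exact_mod_cast this
      exact_mod_cast h4
    calc ((2 * X : ℕ) : ℝ) ^ (ε / 2) ≤ ((X : ℝ) ^ (2 : ℝ)) ^ (ε / 2) := by gcongr
      _ = (X : ℝ) ^ ε := by
        rw [← Real.rpow_mul (Nat.cast_nonneg X)]
        congr 1
        ring

end Pool.Agent.J6H62.CM
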